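import Pool.Agent.MP_943f09_an.Rank

/-! Lower bounds for the Kolmogorov width of the octahedron. -/

namespace Pool.Agent.MP_943f09_an

open Finset

/-- Some subspace of dimension at most `n` approximates the octahedron within `r`. -/
def HasApprox (N n : ℕ) (r : ℝ) : Prop :=
  ∃ L : Submodule ℝ (Fin N → ℝ), Module.finrank ℝ L ≤ n ∧
    ∀ x : Fin N → ℝ, ∑ i, |x i| ≤ 1 → ∃ y ∈ L, ‖x - y‖ ≤ r

theorem HasApprox.exists_matrix {N n : ℕ} {r : ℝ} (h : HasApprox N n r) :
    ∃ L : Submodule ℝ (Fin N → ℝ), Module.finrank ℝ L ≤ n ∧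
      ∃ y : Fin N → Fin N → ℝ, (∀ i, y i ∈ L) ∧
        ∀ i j, |y i j - if i = j then 1 else 0| ≤ r := by
  obtain ⟨L, hL, h⟩ := h
  have h1 : ∀ i : Fin N, ∃ y ∈ L, ‖(Pi.single i 1 : Fin N → ℝ) - y‖ ≤ r := by
    intro i
    refine h _ (le_of_eq ?_)
    rw [sum_eq_single i]
    · simp
    · intro j _ hj
      simp [Pi.single_eq_of_ne hj]
    · simp
  choose y hy hyr using h1
  refine ⟨L, hL, y, hy, fun i j => ?_⟩
  have h2 := (norm_le_pi_norm ((Pi.single i 1 : Fin N → ℝ) - y i) j).trans (hyr i)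
  rw [Real.norm_eq_abs, Pi.sub_apply, Pi.single_apply] at h2
  have e : (if i = j then (1 : ℝ) else 0) = if j = i then 1 else 0 := by
    simp [eq_comm]
  rw [e, abs_sub_comm]
  exact h2

theorem HasApprox.nonneg {N n : ℕ} {r : ℝ} (h : HasApprox N n r) : 0 ≤ r := by
  obtain ⟨L, -, h⟩ := h
  obtain ⟨y, -, hy⟩ := h 0 (by simp)
  exact (norm_nonneg _).trans hy

/-- Restriction to the first `M` coordinates. -/
def restr {M N : ℕ} (h : M ≤ N) : (Fin N → ℝ) →ₗ[ℝ] (Fin M → ℝ) :=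
  LinearMap.funLeft ℝ ℝ (Fin.castLE h)

theorem lower_sub {N n M : ℕ} {r : ℝ} (h : HasApprox N n r) (hn : 0 < n) (hM : M ≤ N) :
    (M : ℝ) - n ≤ (M : ℝ) ^ 2 * r ^ 2 := by
  obtain ⟨L, hL, y, hy, hyr⟩ := h.exists_matrix
  have h1 := card_sub_le (ι := Fin M) (L.map (restr hM))
    (fun i => restr hM (y (Fin.castLE hM i))) (fun i => Submodule.mem_map_of_mem (hy _))
    ((Submodule.finrank_map_le _ _).trans hL) hn
  rw [Fintype.card_fin] at h1
  refine h1.trans ?_
  have h2 : ∀ i j : Fin M, ((restr hM (y (Fin.castLE hM i))) j - if i = j then 1 else 0) ^ 2 ≤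
      r ^ 2 := by
    intro i j
    have h3 := hyr (Fin.castLE hM i) (Fin.castLE hM j)
    have e : (if Fin.castLE hM i = Fin.castLE hM j then (1 : ℝ) else 0) = if i = j then 1 else 0 := by
      simp
    rw [e] at h3
    have h4 : (restr hM (y (Fin.castLE hM i))) j = y (Fin.castLE hM i) (Fin.castLE hM j) := rfl
    rw [h4]
    exact sq_le_sq' (by linarith [(abs_le.1 h3).1]) (abs_le.1 h3).2
  calc _ ≤ ∑ _i : Fin M, ∑ _j : Fin M, r ^ 2 :=
        sum_le_sum fun i _ => sum_le_sum fun j _ => h2 i j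
    _ = _ := by
        rw [sum_const, sum_const, card_univ, Fintype.card_fin]
        simp only [nsmul_eq_mul]
        ring

/-- Rank of entrywise powers. -/
theorem lower_pow {N n : ℕ} {r : ℝ} (h : HasApprox N n r) (hN : 0 < N) (hr : r ≤ 1 / 2) (p : ℕ) :
    (N : ℝ) ≤ ((n + p - 1).choose p : ℝ) * (1 + N * ((2 * r) ^ 2) ^ p) := by
  obtain ⟨L, hL, y, hy, hyr⟩ := h.exists_matrix
  have hr0 := h.nonneg
  have hdiag : ∀ i, 1 / 2 ≤ y i i := by
    intro i
    have := (abs_le.1 (hyr i i)).1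
    simp at this
    linarith
  have hdpos : ∀ i, 0 < y i i := fun i => by linarith [hdiag i]
  obtain ⟨L', hL', hz⟩ := exists_pow_submodule L (fun i j => (y i i)⁻¹ * y i j)
    (fun i => by
      have : (fun j => (y i i)⁻¹ * y i j) = (y i i)⁻¹ • y i := by
        funext j; simp
      rw [this]
      exact Submodule.smul_mem _ _ (hy i)) hL p
  have h1 := trace_sq_le L' _ hz hL'
  have hd : ∀ i : Fin N, ((y i i)⁻¹ * y i i) ^ p = 1 := by
    intro i
    rw [inv_mul_cancel₀ (hdpos i).ne', one_pow]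
  rw [sum_congr rfl fun i _ => hd i] at h1
  simp only [sum_const, card_univ, Fintype.card_fin, nsmul_eq_mul, mul_one] at h1
  have h2 : ∀ i : Fin N, ∑ j, (((y i i)⁻¹ * y i j) ^ p) ^ 2 ≤ 1 + N * ((2 * r) ^ 2) ^ p := by
    intro i
    have h3 : ∀ j : Fin N, (((y i i)⁻¹ * y i j) ^ p) ^ 2 ≤
        (if i = j then 1 else 0) + ((2 * r) ^ 2) ^ p := by
      intro j
      have h0 : (0 : ℝ) ≤ ((2 * r) ^ 2) ^ p := by positivity
      split_ifs with hij
      · subst hij
        rw [hd]; linarith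
      · rw [zero_add, ← pow_mul, mul_comm p 2, pow_mul]
        refine pow_le_pow_left₀ (sq_nonneg _) ?_ p
        have h4 := hyr i j
        rw [if_neg hij, sub_zero] at h4
        have h5 : |(y i i)⁻¹ * y i j| ≤ 2 * r := by
          rw [abs_mul, abs_inv, abs_of_pos (hdpos i)]
          have h6 : (y i i)⁻¹ ≤ 2 := by
            rw [inv_le_comm₀ (hdpos i) (by norm_num)]
            linarith [hdiag i]
          have h7 : 0 ≤ (y i i)⁻¹ := inv_nonneg.2 (hdpos i).le
          have := mul_le_mul h6 h4 (abs_nonneg _) (by norm_num : (0 : ℝ) ≤ 2)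
          exact this
        rw [← sq_abs]
        exact pow_le_pow_left₀ (abs_nonneg _) h5 2
    refine (sum_le_sum fun j _ => h3 j).trans (le_of_eq ?_)
    rw [sum_add_distrib]
    simp
  have h3 : ∑ i : Fin N, ∑ j, (((y i i)⁻¹ * y i j) ^ p) ^ 2 ≤ N * (1 + N * ((2 * r) ^ 2) ^ p) := by
    refine (sum_le_sum fun i _ => h2 i).trans (le_of_eq ?_)
    rw [sum_const, card_univ, Fintype.card_fin, nsmul_eq_mul]
  have hNp : (0 : ℝ) < N := by exact_mod_cast hN
  have hR : (0 : ℝ) ≤ ((n + p - 1).choose p : ℝ) := Nat.cast_nonneg _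
  have h4 := h1.trans (mul_le_mul_of_nonneg_left h3 hR)
  have h5 : (N : ℝ) * N ≤ N * (((n + p - 1).choose p : ℝ) * (1 + N * ((2 * r) ^ 2) ^ p)) := by
    nlinarith
  exact le_of_mul_le_mul_left h5 hNp

end Pool.Agent.MP_943f09_an
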