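import Mathlib

/-! Moving vector families between Euclidean spaces, and the coherence. -/

namespace Pool.Agent.MP_943f09_an

open Finset

/-- There are `N` unit vectors in `ℝ^n` with pairwise inner products at most `m` in absolute
value. -/
def HasDict (N n : ℕ) (m : ℝ) : Prop :=
  ∃ Φ : Fin N → EuclideanSpace ℝ (Fin n), (∀ i, ‖Φ i‖ = 1) ∧
    ∀ i j, i ≠ j → |inner ℝ (Φ i) (Φ j)| ≤ m

/-- Isometric copy of a family whose span has dimension at most `n`. -/
theorem exists_copy {ι E : Type*} [NormedAddCommGroup E] [InnerProductSpace ℝ E] (v : ι → E)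
    [FiniteDimensional ℝ (Submodule.span ℝ (Set.range v))] {n : ℕ}
    (hn : Module.finrank ℝ (Submodule.span ℝ (Set.range v)) ≤ n) :
    ∃ Φ : ι → EuclideanSpace ℝ (Fin n), ∀ i j, inner ℝ (Φ i) (Φ j) = inner ℝ (v i) (v j) := by
  classical
  set S := Submodule.span ℝ (Set.range v) with hS
  have hv : ∀ i, v i ∈ S := fun i => Submodule.subset_span ⟨i, rfl⟩
  set b := stdOrthonormalBasis ℝ S with hb
  set e : Fin (Module.finrank ℝ S) → EuclideanSpace ℝ (Fin n) := fun k =>
    EuclideanSpace.single (Fin.castLE hn k) (1 : ℝ) with he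
  have heo : Orthonormal ℝ e :=
    (EuclideanSpace.orthonormal_single (𝕜 := ℝ) (ι := Fin n)).comp _ (Fin.castLE_injective hn)
  refine ⟨fun i => ∑ k, inner ℝ (b k) (⟨v i, hv i⟩ : S) • e k, fun i j => ?_⟩
  rw [heo.inner_sum]
  have h := b.sum_inner_mul_inner (⟨v i, hv i⟩ : S) (⟨v j, hv j⟩ : S)
  rw [Submodule.coe_inner] at h
  rw [← h]
  refine sum_congr rfl fun k _ => ?_
  rw [real_inner_comm (b k) (⟨v i, hv i⟩ : S)]
  simp

theorem hasDict_of_family {N n : ℕ} {E : Type*} [NormedAddCommGroup E] [InnerProductSpace ℝ E]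
    (v : Fin N → E) (S : Submodule ℝ E) [FiniteDimensional ℝ S] (hS : ∀ i, v i ∈ S)
    (hn : Module.finrank ℝ S ≤ n) {m : ℝ} (h1 : ∀ i, ‖v i‖ = 1)
    (h2 : ∀ i j, i ≠ j → |inner ℝ (v i) (v j)| ≤ m) : HasDict N n m := by
  have hle : Submodule.span ℝ (Set.range v) ≤ S := by
    rw [Submodule.span_le]
    rintro _ ⟨i, rfl⟩
    exact hS i
  have : FiniteDimensional ℝ (Submodule.span ℝ (Set.range v)) :=
    Submodule.finiteDimensional_of_le hle
  obtain ⟨Φ, hΦ⟩ := exists_copy v ((Submodule.finrank_mono hle).trans hn)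
  refine ⟨Φ, fun i => ?_, fun i j hij => ?_⟩
  · have h := hΦ i i
    rw [real_inner_self_eq_norm_sq, real_inner_self_eq_norm_sq, h1 i] at h
    have h0 := norm_nonneg (Φ i)
    nlinarith
  · rw [hΦ]; exact h2 i j hij

theorem HasDict.mono {N n : ℕ} {m m' : ℝ} (h : HasDict N n m) (hm : m ≤ m') : HasDict N n m' := by
  obtain ⟨Φ, h1, h2⟩ := h
  exact ⟨Φ, h1, fun i j hij => (h2 i j hij).trans hm⟩

/-- Passing to a larger index set. -/
theorem hasDict_of_type {N n : ℕ} {ι κ : Type*} [Fintype ι] [Fintype κ]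
    (hN : N ≤ Fintype.card ι) (hn : Fintype.card κ ≤ n)
    (v : ι → EuclideanSpace ℝ κ) {m : ℝ} (h1 : ∀ i, ‖v i‖ = 1)
    (h2 : ∀ i j, i ≠ j → |inner ℝ (v i) (v j)| ≤ m) : HasDict N n m := by
  classical
  set f : Fin N → ι := fun i => (Fintype.equivFin ι).symm (Fin.castLE hN i) with hf
  have hfi : Function.Injective f :=
    (Equiv.injective _).comp (Fin.castLE_injective hN)
  refine hasDict_of_family (fun i => v (f i)) ⊤ (fun i => trivial) ?_ (fun i => h1 _)
    (fun i j hij => h2 _ _ fun h => hij (hfi h))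
  rw [finrank_top, finrank_euclideanSpace]
  exact hn

theorem hasDict_one {N n : ℕ} (hn : 1 ≤ n) : HasDict N n 1 := by
  set e : EuclideanSpace ℝ (Fin n) := EuclideanSpace.single ⟨0, hn⟩ (1 : ℝ) with he
  have hne : ‖e‖ = 1 := by rw [he]; simp
  refine ⟨fun _ => e, fun _ => hne, fun i j _ => ?_⟩
  rw [real_inner_self_eq_norm_sq, hne]
  norm_num

end Pool.Agent.MP_943f09_an
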