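import Pool.Agent.MP_943f09_an.Lower

/-! The rank lower bound in explicit form. -/

namespace Pool.Agent.MP_943f09_an

open Finset

theorem choose_le_exp {n p : ℕ} (hp : 1 ≤ p) :
    ((n + p - 1).choose p : ℝ) ≤ (Real.exp 1 * (n + p) / p) ^ p := by
  have h1 : ((n + p - 1).choose p : ℝ) ≤ ((n + p - 1 : ℕ) : ℝ) ^ p / (p.factorial : ℝ) :=
    Nat.choose_le_pow_div p (n + p - 1)
  have hp0 : (0 : ℝ) < p := by exact_mod_cast hp
  have hf : (0 : ℝ) < p.factorial := by exact_mod_cast p.factorial_pos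
  have h2 : (p : ℝ) ^ p / p.factorial ≤ Real.exp p := Real.pow_div_factorial_le_exp p hp0.le p
  have h3 : ((n + p - 1 : ℕ) : ℝ) ≤ n + p := by
    have : n + p - 1 ≤ n + p := Nat.sub_le _ _
    exact_mod_cast this
  refine h1.trans ?_
  have h4 : ((n + p - 1 : ℕ) : ℝ) ^ p ≤ ((n : ℝ) + p) ^ p := pow_le_pow_left₀ (Nat.cast_nonneg _) h3 p
  have h5 : (p.factorial : ℝ)⁻¹ ≤ Real.exp p / (p : ℝ) ^ p := by
    rw [div_le_iff₀ hf] at h2
    rw [inv_eq_one_div, div_le_div_iff₀ hf (pow_pos hp0 p)]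
    linarith
  have h6 : Real.exp p = Real.exp 1 ^ p := by rw [← Real.exp_nat_mul, mul_one]
  calc ((n + p - 1 : ℕ) : ℝ) ^ p / (p.factorial : ℝ)
      = ((n + p - 1 : ℕ) : ℝ) ^ p * (p.factorial : ℝ)⁻¹ := by rw [div_eq_mul_inv]
    _ ≤ ((n : ℝ) + p) ^ p * (Real.exp p / (p : ℝ) ^ p) := by
        apply mul_le_mul h4 h5 (by positivity) (by positivity)
    _ = (Real.exp 1 * (n + p) / p) ^ p := by
        rw [h6, div_pow, mul_pow]; ring

theorem log_le_two_sqrt {y : ℝ} (hy : 0 < y) : Real.log y ≤ 2 * Real.sqrt y := by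
  have h1 : Real.log y = 2 * Real.log (Real.sqrt y) := by
    rw [Real.log_sqrt hy.le]; ring
  have h2 := Real.log_le_sub_one_of_pos (Real.sqrt_pos.2 hy)
  rw [h1]; linarith

/-- inversion of `y ≤ 2e(1 + 2 x log y)` -/
theorem invert {x y : ℝ} (hx : 0 ≤ x) (hy : 1 ≤ y)
    (h : y ≤ 2 * Real.exp 1 * (1 + 2 * x * Real.log y)) :
    y ≤ 80 * (1 + x * (1 + Real.log (1 + x))) := by
  have he := Real.exp_one_lt_d9
  have he0 := Real.exp_one_gt_d9
  have hy0 : 0 < y := by linarith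
  set s := Real.sqrt y with hs
  have hs1 : 1 ≤ s := by rw [hs]; exact Real.one_le_sqrt.2 hy
  have hss : s * s = y := Real.mul_self_sqrt hy0.le
  have hl := log_le_two_sqrt hy0
  rw [← hs] at hl
  have hl0 : 0 ≤ Real.log y := Real.log_nonneg hy
  have h1 : y ≤ 2 * Real.exp 1 * (1 + 4 * x) * s := by
    have h2 : 1 + 2 * x * Real.log y ≤ (1 + 4 * x) * s := by nlinarith
    nlinarith
  have h2 : s ≤ 2 * Real.exp 1 * (1 + 4 * x) := by
    rw [← hss] at h1
    exact le_of_mul_le_mul_right h1 (by linarith)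
  have h3 : s ≤ 8 * Real.exp 1 * (1 + x) := by nlinarith
  have hlog : Real.log y ≤ 7 * (1 + Real.log (1 + x)) := by
    have e1 : Real.log y = 2 * Real.log s := by rw [← hss, Real.log_mul (by linarith) (by linarith)]; ring
    have e2 : Real.log s ≤ Real.log (8 * Real.exp 1 * (1 + x)) := Real.log_le_log (by linarith) h3
    have e3 : Real.log (8 * Real.exp 1 * (1 + x)) = 3 * Real.log 2 + 1 + Real.log (1 + x) := by
      rw [Real.log_mul (by positivity) (by positivity), Real.log_mul (by norm_num) (by positivity),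
        Real.log_exp, show (8 : ℝ) = 2 ^ 3 by norm_num, Real.log_pow]
      norm_num
    have e4 := Real.log_two_lt_d9
    have e5 : 0 ≤ Real.log (1 + x) := Real.log_nonneg (by linarith)
    rw [e1]; rw [e3] at e2; linarith
  have hL : 0 ≤ Real.log (1 + x) := Real.log_nonneg (by linarith)
  have h4 : 2 * x * Real.log y ≤ 14 * (x * (1 + Real.log (1 + x))) := by nlinarith
  have h5 : 0 ≤ x * (1 + Real.log (1 + x)) := by positivity
  nlinarith

theorem lower_main {N n : ℕ} {r : ℝ} (h : HasApprox N n r) (hn : 1 ≤ n) (hN : 2 * n ≤ N) :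
    1 ≤ 320 * (1 + (n / Real.log N) * (1 + Real.log (1 + n / Real.log N))) * r ^ 2 := by
  have hr0 := h.nonneg
  have hn0 : (0 : ℝ) < n := by exact_mod_cast hn
  have hn1 : (1 : ℝ) ≤ n := by exact_mod_cast hn
  have hNn : (2 : ℝ) * n ≤ N := by exact_mod_cast hN
  have hN2 : (2 : ℝ) ≤ N := by linarith
  have hl0 : 0 < Real.log N := Real.log_pos (by linarith)
  set ℓ := Real.log N with hℓ
  set x := (n : ℝ) / ℓ with hx
  have hx0 : 0 ≤ x := by positivity
  have hLg : 0 ≤ Real.log (1 + x) := Real.log_nonneg (by linarith)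
  have hA : 0 ≤ x * (1 + Real.log (1 + x)) := by positivity
  by_cases hr : 1 / 4 < r
  · have : (1 / 4) ^ 2 ≤ r ^ 2 := pow_le_pow_left₀ (by norm_num) hr.le 2
    nlinarith
  push Not at hr
  have h1 := lower_sub (M := 2 * n) h (by omega) hN
  have h2 : 1 ≤ 4 * n * r ^ 2 := by
    push_cast at h1
    have : (n : ℝ) * 1 ≤ n * (4 * n * r ^ 2) := by nlinarith
    exact le_of_mul_le_mul_left this hn0
  have hrpos : 0 < r := by
    rcases hr0.lt_or_eq with h | h
    · exact h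
    · rw [← h] at h2; norm_num at h2
  set z := (2 * r) ^ 2 with hz
  have hz0 : 0 < z := by positivity
  set y := z⁻¹ with hy
  have hy0 : 0 < y := inv_pos.2 hz0
  have hz4 : z ≤ 1 / 4 := by rw [hz]; nlinarith
  have hy4 : 4 ≤ y := by
    rw [hy, le_inv_comm₀ (by norm_num) hz0]; linarith
  have hyn : y ≤ n := by
    rw [hy, inv_le_comm₀ hz0 hn0, inv_eq_one_div, div_le_iff₀ hn0, hz]; nlinarith
  have hyN : y ≤ N := by linarith
  set Λ := Real.log y with hΛ
  have hΛ0 : 0 < Λ := Real.log_pos (by linarith)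
  have hΛℓ : Λ ≤ ℓ := Real.log_le_log hy0 hyN
  set k := ⌊ℓ / Λ⌋₊ with hk
  have hk1 : 1 ≤ k := by
    rw [hk, Nat.one_le_floor_iff]
    rw [le_div_iff₀ hΛ0]; linarith
  have hk0 : (0 : ℝ) < k := by exact_mod_cast hk1
  have hkle : (k : ℝ) ≤ ℓ / Λ := Nat.floor_le (by positivity)
  have hklt : ℓ / Λ < k + 1 := Nat.lt_floor_add_one _
  have hk1' : (1 : ℝ) ≤ k := by exact_mod_cast hk1
  have hk2 : ℓ ≤ 2 * k * Λ := by
    rw [div_lt_iff₀ hΛ0] at hklt
    nlinarith
  have hyk : y ^ k ≤ N := by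
    have e1 : Real.log (y ^ k) ≤ Real.log N := by
      rw [Real.log_pow]
      rw [le_div_iff₀ hΛ0] at hkle
      exact hkle
    exact (Real.log_le_log_iff (by positivity) (by linarith)).1 e1
  have h3 := lower_pow h (by omega) (by linarith) k
  rw [← hz] at h3
  have hR0 : (0 : ℝ) ≤ ((n + k - 1).choose k : ℝ) := Nat.cast_nonneg _
  have hzk : z ^ k = (y ^ k)⁻¹ := by rw [hy, inv_pow, inv_inv]
  have hyk0 : 0 < y ^ k := by positivity
  have h4 : 1 ≤ (N : ℝ) * z ^ k := by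
    rw [hzk, ← div_eq_mul_inv, le_div_iff₀ hyk0]; linarith
  have h5 : (N : ℝ) ≤ ((n + k - 1).choose k : ℝ) * (2 * (N * z ^ k)) := by
    refine h3.trans (mul_le_mul_of_nonneg_left ?_ hR0)
    linarith
  have h6 : y ^ k ≤ 2 * ((n + k - 1).choose k : ℝ) := by
    rw [hzk] at h5
    have hNp : (0 : ℝ) < N := by linarith
    have e1 : (N : ℝ) * (y ^ k) ≤ N * (2 * ((n + k - 1).choose k : ℝ)) := by
      have := mul_le_mul_of_nonneg_right h5 hyk0.le
      have e2 : ((n + k - 1).choose k : ℝ) * (2 * (N * (y ^ k)⁻¹)) * y ^ k =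
          N * (2 * ((n + k - 1).choose k : ℝ)) := by
        field_simp
      rw [e2] at this
      exact this
    exact le_of_mul_le_mul_left e1 hNp
  have h7 : y ^ k ≤ (2 * (Real.exp 1 * (n + k) / k)) ^ k := by
    refine h6.trans ?_
    rw [mul_pow]
    have e1 := choose_le_exp (n := n) hk1
    have e2 : (2 : ℝ) ≤ 2 ^ k := by
      calc (2 : ℝ) = 2 ^ 1 := by norm_num
        _ ≤ 2 ^ k := pow_le_pow_right₀ (by norm_num) hk1
    exact mul_le_mul e2 e1 hR0 (by positivity)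
  have h8 : y ≤ 2 * (Real.exp 1 * (n + k) / k) :=
    le_of_pow_le_pow_left₀ (by omega) (by positivity) h7
  have h9 : y ≤ 2 * Real.exp 1 * (1 + 2 * x * Real.log y) := by
    refine h8.trans ?_
    have e1 : (n : ℝ) / k ≤ 2 * x * Λ := by
      rw [hx, div_le_iff₀ hk0]
      have : 2 * (n / ℓ) * Λ * k = n * ((2 * k * Λ) / ℓ) := by field_simp
      rw [this]
      have e3 : 1 ≤ (2 * k * Λ) / ℓ := by rw [le_div_iff₀ hl0]; linarith
      nlinarith
    have e2 : 2 * (Real.exp 1 * (n + k) / k) = 2 * Real.exp 1 * (1 + n / k) := by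
      field_simp
      ring
    rw [e2]
    have := Real.exp_pos 1
    nlinarith
  have h10 := invert hx0 (by linarith) h9
  have h11 : y * z = 1 := by rw [hy]; exact inv_mul_cancel₀ hz0.ne'
  have h12 : y * z ≤ 80 * (1 + x * (1 + Real.log (1 + x))) * z :=
    mul_le_mul_of_nonneg_right h10 hz0.le
  rw [h11] at h12
  rw [hz] at h12
  linarith

end Pool.Agent.MP_943f09_an
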