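import Pool.Agent.MP_943f09_an.Embed

/-! The near-square regime: glueing two orthonormal families along a flat orthogonal matrix. -/

namespace Pool.Agent.MP_943f09_an

open Finset

/-- A flat orthogonal matrix of order `2 ^ t`. -/
theorem exists_flat (t : ℕ) : ∃ W : (Fin t → Bool) → (Fin t → Bool) → ℝ,
    (∀ a b, |W a b| = (Real.sqrt (2 ^ t))⁻¹) ∧
    ∀ b c, ∑ a, W a b * W a c = if b = c then 1 else 0 := by
  set g : Bool → Bool → ℝ := fun x y => if x && y then -1 else 1 with hg
  refine ⟨fun a b => (Real.sqrt (2 ^ t))⁻¹ * ∏ i, g (a i) (b i), ?_, ?_⟩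
  · intro a b
    have h1 : |∏ i, g (a i) (b i)| = 1 := by
      rw [abs_prod]
      refine prod_eq_one fun i _ => ?_
      rw [hg]
      rcases a i <;> rcases b i <;> simp
    rw [abs_mul, h1, mul_one, abs_of_nonneg (by positivity)]
  · intro b c
    have h1 : ∀ a : Fin t → Bool, ((Real.sqrt (2 ^ t))⁻¹ * ∏ i, g (a i) (b i)) *
        ((Real.sqrt (2 ^ t))⁻¹ * ∏ i, g (a i) (c i)) =
        (2 ^ t)⁻¹ * ∏ i, (g (a i) (b i) * g (a i) (c i)) := by
      intro a
      rw [prod_mul_distrib]
      have : (Real.sqrt (2 ^ t))⁻¹ * (Real.sqrt (2 ^ t))⁻¹ = ((2 : ℝ) ^ t)⁻¹ := by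
        rw [← mul_inv, Real.mul_self_sqrt (by positivity)]
      rw [← this]; ring
    rw [sum_congr rfl fun a _ => h1 a, ← mul_sum]
    have h2 := Finset.prod_univ_sum (fun _ : Fin t => (Finset.univ : Finset Bool))
      (fun i (x : Bool) => g x (b i) * g x (c i))
    rw [Fintype.piFinset_univ] at h2
    rw [← h2]
    have h3 : ∀ i, ∑ x : Bool, g x (b i) * g x (c i) = if b i = c i then 2 else 0 := by
      intro i
      rw [Fintype.sum_bool, hg]
      rcases b i <;> rcases c i <;> norm_num
    rw [prod_congr rfl fun i _ => h3 i]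
    by_cases hbc : b = c
    · subst hbc
      simp
    · rw [if_neg hbc]
      obtain ⟨i, hi⟩ : ∃ i, b i ≠ c i := by
        by_contra hcon
        push Not at hcon
        exact hbc (funext hcon)
      rw [prod_eq_zero (mem_univ i) (by rw [if_neg hi]), mul_zero]

section
variable {I J A : Type*} [Fintype I] [Fintype J] [Fintype A] [DecidableEq I] [DecidableEq J]
  [DecidableEq A]

/-- the glued family -/
noncomputable def glue (W : A → A → ℝ) (p : I → A) (q : J → A) (u : I → ℝ) (w : J → ℝ) :
    I ⊕ J → EuclideanSpace ℝ (I ⊕ J)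
  | Sum.inl i => WithLp.toLp 2 (Sum.elim (fun i' => if i' = i then 1 else 0) (fun _ => 0))
  | Sum.inr j => WithLp.toLp 2 (Sum.elim (fun i' => -(w j * u i' * W (p i') (q j)))
      (fun j' => (if j' = j then 1 else 0) - if q j' = q j then w j * w j' else 0))

theorem glue_ll (W : A → A → ℝ) (p : I → A) (q : J → A) (u : I → ℝ) (w : J → ℝ) (i i' : I) :
    inner ℝ (glue W p q u w (Sum.inl i)) (glue W p q u w (Sum.inl i')) =
      if i = i' then 1 else 0 := by
  rw [PiLp.inner_apply, Fintype.sum_sum_type]
  simp [glue, eq_comm]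

theorem glue_lr (W : A → A → ℝ) (p : I → A) (q : J → A) (u : I → ℝ) (w : J → ℝ) (i : I) (j : J) :
    inner ℝ (glue W p q u w (Sum.inl i)) (glue W p q u w (Sum.inr j)) =
      -(w j * u i * W (p i) (q j)) := by
  rw [PiLp.inner_apply, Fintype.sum_sum_type]
  simp [glue]

theorem sum_fiber (p : I → A) (u : I → ℝ) (f : A → ℝ)
    (hu : ∀ a, ∑ i, (if p i = a then u i ^ 2 else 0) = 1) :
    ∑ i, u i ^ 2 * f (p i) = ∑ a, f a := by
  have h1 : ∀ a, f a = ∑ i, (if p i = a then u i ^ 2 * f (p i) else 0) := by
    intro a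
    conv_lhs => rw [← one_mul (f a), ← hu a, sum_mul]
    refine sum_congr rfl fun i _ => ?_
    split_ifs with h
    · rw [h]
    · simp
  rw [sum_congr rfl fun a _ => h1 a, sum_comm]
  refine sum_congr rfl fun i _ => ?_
  simp

theorem glue_rr (W : A → A → ℝ) (p : I → A) (q : J → A) (u : I → ℝ) (w : J → ℝ)
    (hu : ∀ a, ∑ i, (if p i = a then u i ^ 2 else 0) = 1)
    (hw : ∀ a, ∑ j, (if q j = a then w j ^ 2 else 0) = 1)
    (hW : ∀ b c, ∑ a, W a b * W a c = if b = c then 1 else 0) (j j' : J) :
    inner ℝ (glue W p q u w (Sum.inr j)) (glue W p q u w (Sum.inr j')) =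
      if j = j' then 1 else 0 := by
  rw [PiLp.inner_apply, Fintype.sum_sum_type]
  have e1 : ∑ i : I, inner ℝ ((glue W p q u w (Sum.inr j)) (Sum.inl i))
      ((glue W p q u w (Sum.inr j')) (Sum.inl i)) = if q j = q j' then w j * w j' else 0 := by
    have h1 : ∀ i : I, inner ℝ ((glue W p q u w (Sum.inr j)) (Sum.inl i))
      ((glue W p q u w (Sum.inr j')) (Sum.inl i)) =
        w j * w j' * (u i ^ 2 * (W (p i) (q j) * W (p i) (q j'))) := by
      intro i
      simp only [glue, Sum.elim_inl, RCLike.inner_apply, conj_trivial]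
      ring
    rw [sum_congr rfl fun i _ => h1 i, ← mul_sum,
      sum_fiber p u (fun a => W a (q j) * W a (q j')) hu, hW]
    split_ifs <;> simp
  have e2 : ∑ k : J, inner ℝ ((glue W p q u w (Sum.inr j)) (Sum.inr k))
      ((glue W p q u w (Sum.inr j')) (Sum.inr k)) =
      (if j = j' then 1 else 0) - if q j = q j' then w j * w j' else 0 := by
    have h1 : ∀ k : J, inner ℝ ((glue W p q u w (Sum.inr j)) (Sum.inr k))
      ((glue W p q u w (Sum.inr j')) (Sum.inr k)) =
        (if k = j then (if k = j' then 1 else 0) else 0)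
        - (if k = j then (if q k = q j' then w j' * w k else 0) else 0)
        - (if k = j' then (if q k = q j then w j * w k else 0) else 0)
        + (if q j = q j' then w j * w j' else 0) * (if q k = q j then w k ^ 2 else 0) := by
      intro k
      simp only [glue, Sum.elim_inr, RCLike.inner_apply, conj_trivial]
      by_cases a1 : q k = q j
      · by_cases a2 : q k = q j'
        · have a3 : q j = q j' := a1.symm.trans a2
          simp only [a1, a2, a3, if_true]
          split_ifs <;> ring
        · have a3 : q j ≠ q j' := fun h => a2 (a1.trans h)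
          have a4 : k ≠ j' := fun h => a2 (by rw [h])
          simp only [a1, a3, a4, if_true, if_false]
          split_ifs <;> ring
      · have a4 : k ≠ j := fun h => a1 (by rw [h])
        simp only [a1, a4, if_false]
        split_ifs <;> ring
    rw [sum_congr rfl fun k _ => h1 k, sum_add_distrib, sum_sub_distrib, sum_sub_distrib,
      ← mul_sum, hw]
    simp only [sum_ite_eq', mem_univ, if_true, mul_one]
    by_cases hj : j = j'
    · subst hj; simp
    · by_cases hq : q j = q j'
      · simp only [hj, hq, if_true, if_false]; ring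
      · have hq' : q j' ≠ q j := fun h => hq h.symm
        simp [hj, hq, hq']
  have e3 := e1
  rw [e1, e2]; ring

/-- the linear map killing the glued family -/
noncomputable def glueMap (q : J → A) (w : J → ℝ) : EuclideanSpace ℝ (I ⊕ J) →ₗ[ℝ] (A → ℝ) where
  toFun x a := ∑ j, if q j = a then w j * x (Sum.inr j) else 0
  map_add' x y := by
    funext a
    simp only [Pi.add_apply]
    rw [← sum_add_distrib]
    refine sum_congr rfl fun j _ => ?_
    split_ifs
    · simp [mul_add]
    · simp
  map_smul' c x := by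
    funext a
    simp only [Pi.smul_apply, smul_eq_mul, RingHom.id_apply]
    rw [mul_sum]
    refine sum_congr rfl fun j _ => ?_
    split_ifs
    · simp; ring
    · simp

theorem glue_mem (W : A → A → ℝ) (p : I → A) (q : J → A) (u : I → ℝ) (w : J → ℝ)
    (hw : ∀ a, ∑ j, (if q j = a then w j ^ 2 else 0) = 1) (x : I ⊕ J) :
    glue W p q u w x ∈ LinearMap.ker (glueMap (I := I) q w) := by
  rw [LinearMap.mem_ker]
  funext a
  change (∑ j, if q j = a then w j * (glue W p q u w x) (Sum.inr j) else 0) = 0
  rcases x with i | j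
  · simp [glue]
  · have h1 : ∀ k : J, (if q k = a then w k * (glue W p q u w (Sum.inr j)) (Sum.inr k) else 0) =
        (if k = j then (if q k = a then w k else 0) else 0)
        - (if q j = a then w j else 0) * (if q k = a then w k ^ 2 else 0) := by
      intro k
      simp only [glue, Sum.elim_inr]
      by_cases a1 : q k = a
      · by_cases a2 : q j = a
        · have a3 : q k = q j := a1.trans a2.symm
          simp only [a1, a2, if_true]
          split_ifs <;> ring
        · have a3 : ¬ (q k = q j) := fun h => a2 (h.symm.trans a1)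
          have a4 : ¬ (a = q j) := fun h => a2 h.symm
          simp only [a1, a2, a4, if_true, if_false]
          split_ifs <;> ring
      · by_cases a4 : k = j
        · subst a4; simp [a1]
        · simp [a1, a4]
    rw [sum_congr rfl fun k _ => h1 k, sum_sub_distrib, ← mul_sum, hw]
    simp

theorem finrank_ker_glueMap (q : J → A) (w : J → ℝ)
    (hw : ∀ a, ∑ j, (if q j = a then w j ^ 2 else 0) = 1) :
    Module.finrank ℝ (LinearMap.ker (glueMap (I := I) q w)) + Fintype.card A =
      Fintype.card I + Fintype.card J := by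
  have hs : Function.Surjective (glueMap (I := I) q w) := by
    intro z
    refine ⟨WithLp.toLp 2 (Sum.elim (fun _ => 0) fun j => w j * z (q j)), ?_⟩
    funext a
    change (∑ j, if q j = a then w j * (w j * z (q j)) else 0) = z a
    have h1 : ∀ j, (if q j = a then w j * (w j * z (q j)) else 0) =
        (if q j = a then w j ^ 2 else 0) * z a := by
      intro j
      split_ifs with h
      · rw [h]; ring
      · simp
    rw [sum_congr rfl fun j _ => h1 j, ← sum_mul, hw, one_mul]
  have h := LinearMap.finrank_range_add_finrank_ker (glueMap (I := I) q w)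
  rw [LinearMap.range_eq_top.2 hs, finrank_top, Module.finrank_fintype_fun_eq_card,
    finrank_euclideanSpace, Fintype.card_sum] at h
  omega

end

/-- Weights on balanced fibres. -/
theorem exists_weights {A : Type*} [Fintype A] [DecidableEq A] {M m : ℕ} (hm : 1 ≤ m)
    (hM : Fintype.card A * m ≤ M) (hA : 0 < Fintype.card A) :
    ∃ (p : Fin M → A) (u : Fin M → ℝ), (∀ a, ∑ i, (if p i = a then u i ^ 2 else 0) = 1) ∧
      ∀ i, 0 ≤ u i ∧ u i ≤ (Real.sqrt m)⁻¹ := by
  classical
  set h := Fintype.card A with hh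
  set e := Fintype.equivFin A with he
  set p : Fin M → A := fun i => e.symm ⟨(i : ℕ) % h, Nat.mod_lt _ hA⟩ with hp
  set s : A → ℕ := fun a => (univ.filter fun i : Fin M => p i = a).card with hs
  have hsm : ∀ a, m ≤ s a := by
    intro a
    have hlt : ∀ l : Fin m, (e a : ℕ) + h * l < M := by
      intro l
      have h1 := (e a).2
      have h2 := l.2
      have h3 : h * (l + 1) ≤ h * m := Nat.mul_le_mul_left h (by omega)
      have h4 : (e a : ℕ) < h := h1
      calc (e a : ℕ) + h * l < h + h * l := by omega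
        _ = h * (l + 1) := by ring
        _ ≤ M := h3.trans hM
    have hcard := card_le_card_of_injOn (s := (univ : Finset (Fin m)))
      (t := univ.filter fun i : Fin M => p i = a) (fun l => ⟨(e a : ℕ) + h * l, hlt l⟩) ?_ ?_
    · simpa using hcard
    · intro l _
      simp only [coe_filter, mem_univ, true_and, Set.mem_ofPred_eq, hp]
      rw [Equiv.symm_apply_eq]
      ext
      simp only [Nat.add_mul_mod_self_left]
      exact Nat.mod_eq_of_lt (e a).2
    · intro l _ l' _ hll
      simp only [Fin.mk.injEq] at hll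
      have : h * l = h * l' := by omega
      exact Fin.ext (Nat.eq_of_mul_eq_mul_left hA this)
  refine ⟨p, fun i => (Real.sqrt (s (p i)))⁻¹, fun a => ?_, fun i => ⟨by positivity, ?_⟩⟩
  · have h1 : ∀ i, (if p i = a then ((Real.sqrt (s (p i)))⁻¹) ^ 2 else 0) =
        if p i = a then ((s a : ℝ))⁻¹ else 0 := by
      intro i
      split_ifs with hi
      · rw [hi, inv_pow, Real.sq_sqrt (Nat.cast_nonneg _)]
      · rfl
    rw [sum_congr rfl fun i _ => h1 i, ← sum_filter, sum_const, nsmul_eq_mul]
    have : (s a : ℝ) ≠ 0 := by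
      have := hsm a
      have : 0 < s a := by omega
      exact_mod_cast this.ne'
    exact mul_inv_cancel₀ this
  · have h1 : (m : ℝ) ≤ s (p i) := by exact_mod_cast hsm (p i)
    have h2 : (0 : ℝ) < m := by exact_mod_cast hm
    exact inv_anti₀ (Real.sqrt_pos.2 h2) (Real.sqrt_le_sqrt h1)

theorem hasDict_near {N n k : ℕ} (hk : 1 ≤ k) (hkn : n + k = N) (h4 : 4 * k ≤ N) :
    HasDict N n (6 * Real.sqrt k / N) := by
  classical
  obtain ⟨t, ht1, ht2⟩ : ∃ t : ℕ, k ≤ 2 ^ t ∧ 2 ^ t < 2 * k := by
    rcases Nat.lt_or_ge 1 k with h | h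
    · refine ⟨Nat.clog 2 k, Nat.le_pow_clog (by norm_num) k, ?_⟩
      have h1 := Nat.pow_pred_clog_lt_self (b := 2) (by norm_num) h
      have h2 : 0 < Nat.clog 2 k := Nat.clog_pos (by norm_num) h
      obtain ⟨c, hc⟩ := Nat.exists_eq_succ_of_ne_zero h2.ne'
      rw [hc] at h1 ⊢
      simp only [Nat.succ_eq_add_one, Nat.pred_succ, Nat.add_sub_cancel] at h1
      rw [pow_succ]
      omega
    · exact ⟨0, by omega, by omega⟩
  set h := 2 ^ t with hh
  have hh0 : 0 < h := by positivity
  have hN0 : 0 < N := by omega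
  set m := N / 2 / h with hm
  have hhN : h ≤ N / 2 := by omega
  have hm1 : 1 ≤ m := by
    rw [hm, Nat.one_le_div_iff hh0]; exact hhN
  have hmh : h * m ≤ N / 2 := by rw [hm]; exact Nat.mul_div_le _ _
  have hcard : Fintype.card (Fin t → Bool) = h := by simp [hh]
  obtain ⟨p, u, hu, hub⟩ := exists_weights (A := Fin t → Bool) (M := N / 2) hm1
    (by rw [hcard]; exact hmh) (by rw [hcard]; exact hh0)
  obtain ⟨q, w, hw, hwb⟩ := exists_weights (A := Fin t → Bool) (M := N - N / 2) hm1
    (by rw [hcard]; omega) (by rw [hcard]; exact hh0)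
  obtain ⟨W, hWa, hWo⟩ := exists_flat t
  -- the bound for the entries
  have hm0 : (0 : ℝ) < m := by exact_mod_cast hm1
  have hN0' : (0 : ℝ) < N := by exact_mod_cast hN0
  have hh0' : (0 : ℝ) < h := by exact_mod_cast hh0
  have hbound : (m : ℝ)⁻¹ * (Real.sqrt h)⁻¹ ≤ 6 * Real.sqrt k / N := by
    have h1 : N < 4 * h * m := by
      have e1 : N / 2 < h * (m + 1) := by
        rw [hm]; exact Nat.lt_mul_div_succ _ hh0
      have e2 : h * (m + 1) ≤ h * (2 * m) := Nat.mul_le_mul_left h (by omega)
      have e3 : N < 2 * (N / 2 + 1) := by omega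
      have e4 : N / 2 + 1 ≤ h * (2 * m) := by omega
      calc N < 2 * (N / 2 + 1) := e3
        _ ≤ 2 * (h * (2 * m)) := Nat.mul_le_mul_left 2 e4
        _ = 4 * h * m := by ring
    have h1' : (N : ℝ) ≤ 4 * h * m := by exact_mod_cast h1.le
    have h2 : (h : ℝ) ≤ 2 * k := by exact_mod_cast ht2.le
    have h3 : Real.sqrt h ≤ 3 / 2 * Real.sqrt k := by
      have e1 : Real.sqrt h ≤ Real.sqrt ((3 / 2) ^ 2 * k) := Real.sqrt_le_sqrt (by
        have : (0 : ℝ) ≤ k := Nat.cast_nonneg _
        nlinarith)
      rwa [Real.sqrt_mul (by norm_num), Real.sqrt_sq (by norm_num)] at e1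
    have hsq : Real.sqrt h * Real.sqrt h = h := Real.mul_self_sqrt hh0'.le
    have hs0 : 0 < Real.sqrt h := Real.sqrt_pos.2 hh0'
    rw [← mul_inv, inv_le_iff_one_le_mul₀ (by positivity), div_mul_eq_mul_div, le_div_iff₀ hN0',
      one_mul]
    calc (N : ℝ) ≤ 4 * h * m := h1'
      _ = 4 * Real.sqrt h * (m * Real.sqrt h) := by linear_combination (-(4 * (m : ℝ))) * hsq
      _ ≤ 4 * (3 / 2 * Real.sqrt k) * (m * Real.sqrt h) := by gcongr
      _ = 6 * Real.sqrt k * (m * Real.sqrt h) := by ring
  have hb0 : 0 ≤ 6 * Real.sqrt k / N := by positivity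
  set v := glue W p q u w with hv
  have hentry : ∀ (i : Fin (N / 2)) (j : Fin (N - N / 2)),
      |-(w j * u i * W (p i) (q j))| ≤ 6 * Real.sqrt k / N := by
    intro i j
    refine le_trans ?_ hbound
    rw [abs_neg, abs_mul, hWa, abs_mul, abs_of_nonneg (hwb j).1, abs_of_nonneg (hub i).1]
    have e1 : (((2 : ℕ) ^ t : ℕ) : ℝ) = (2 : ℝ) ^ t := by push_cast; rfl
    rw [hh, e1]
    refine mul_le_mul_of_nonneg_right ?_ (by positivity)
    have h1 := mul_le_mul (hwb j).2 (hub i).2 (hub i).1 (by positivity)
    rwa [← mul_inv, Real.mul_self_sqrt hm0.le] at h1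
  set f : Fin N → Fin (N / 2) ⊕ Fin (N - N / 2) := fun i =>
    finSumFinEquiv.symm (Fin.cast (by omega : N = N / 2 + (N - N / 2)) i) with hf
  have hfi : Function.Injective f := (Equiv.injective _).comp (Fin.cast_injective _)
  refine hasDict_of_family (fun i => v (f i))
    (LinearMap.ker (glueMap (I := Fin (N / 2)) q w)) (fun i => glue_mem W p q u w hw _) ?_
    (fun i => ?_) (fun i j hij => ?_)
  · have h1 := finrank_ker_glueMap (I := Fin (N / 2)) q w hw
    rw [hcard, Fintype.card_fin, Fintype.card_fin] at h1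
    omega
  · have h1 : inner ℝ (v (f i)) (v (f i)) = (1 : ℝ) := by
      rcases f i with a | a
      · rw [hv, glue_ll]; simp
      · rw [hv, glue_rr W p q u w hu hw hWo]; simp
    rw [real_inner_self_eq_norm_sq] at h1
    have h0 := norm_nonneg (v (f i))
    nlinarith
  · have hne : f i ≠ f j := fun h => hij (hfi h)
    rcases hi : f i with a | a <;> rcases hj : f j with b | b
    · rw [hv, glue_ll, if_neg (fun h => hne (by rw [hi, hj, h])), abs_zero]; exact hb0
    · rw [hv, glue_lr]; exact hentry a b
    · rw [hv, real_inner_comm, glue_lr]; exact hentry b a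
    · rw [hv, glue_rr W p q u w hu hw hWo, if_neg (fun h => hne (by rw [hi, hj, h])), abs_zero]
      exact hb0

end Pool.Agent.MP_943f09_an
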