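import Pool.Agent.MP_943f09_an.Embed

/-! Reed-Solomon families. -/

namespace Pool.Agent.MP_943f09_an

open Finset Polynomial

/-- the polynomial with given coefficients -/
noncomputable def pol {q a : ℕ} (f : Fin a → ZMod q) : (ZMod q)[X] := ∑ i : Fin a, C (f i) * X ^ (i : ℕ)

theorem coeff_pol {q a : ℕ} (f : Fin a → ZMod q) (i : Fin a) : (pol f).coeff i = f i := by
  unfold pol
  rw [finsetSum_coeff, sum_eq_single i]
  · simp
  · intro j _ hj
    rw [coeff_C_mul, coeff_X_pow, if_neg, mul_zero]
    intro h
    exact hj (Fin.ext h.symm)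
  · simp

theorem degree_pol {q a : ℕ} (f : Fin a → ZMod q) : (pol f).degree < a := by
  exact degree_sum_fin_lt f

/-- the Reed-Solomon vectors -/
noncomputable def rsv {q a : ℕ} (f : Fin a → ZMod q) : EuclideanSpace ℝ (ZMod q × ZMod q) :=
  WithLp.toLp 2 fun p => if p.2 = (pol f).eval p.1 then (Real.sqrt q)⁻¹ else 0

theorem inner_rsv {q a : ℕ} [NeZero q] (f g : Fin a → ZMod q) :
    inner ℝ (rsv f) (rsv g) =
      ((univ.filter fun x : ZMod q => (pol f).eval x = (pol g).eval x).card : ℝ) / q := by
  have hq : (0 : ℝ) < q := by exact_mod_cast Nat.pos_of_ne_zero (NeZero.ne q)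
  rw [PiLp.inner_apply]
  unfold rsv
  rw [Fintype.sum_prod_type]
  have h1 : ∀ x : ZMod q, ∑ y : ZMod q, inner ℝ
      ((WithLp.toLp 2 fun p : ZMod q × ZMod q => if p.2 = (pol f).eval p.1 then (Real.sqrt q)⁻¹ else 0 :
        EuclideanSpace ℝ (ZMod q × ZMod q)) (x, y))
      ((WithLp.toLp 2 fun p : ZMod q × ZMod q => if p.2 = (pol g).eval p.1 then (Real.sqrt q)⁻¹ else 0 :
        EuclideanSpace ℝ (ZMod q × ZMod q)) (x, y)) =
      if (pol f).eval x = (pol g).eval x then (q : ℝ)⁻¹ else 0 := by
    intro x
    rw [sum_eq_single ((pol f).eval x)]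
    · by_cases h : (pol f).eval x = (pol g).eval x
      · simp only [h, if_true]
        simp only [RCLike.inner_apply, conj_trivial]
        rw [← mul_inv, Real.mul_self_sqrt hq.le]
      · simp only [h, if_true, if_false]
        simp
    · intro y _ hy
      simp [hy]
    · simp
  rw [sum_congr rfl fun x _ => h1 x, ← sum_filter, sum_const, nsmul_eq_mul, div_eq_mul_inv]

theorem hasDict_rs {N n q a : ℕ} (hq : q.Prime) (hqn : q ^ 2 ≤ n) (hN : N ≤ q ^ a) :
    HasDict N n (((a : ℝ) - 1) / q) := by
  have : Fact q.Prime := ⟨hq⟩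
  have hq0 : (0 : ℝ) < q := by exact_mod_cast hq.pos
  refine hasDict_of_type (ι := Fin a → ZMod q) (κ := ZMod q × ZMod q) ?_ ?_ rsv ?_ ?_
  · rw [Fintype.card_fun, ZMod.card, Fintype.card_fin]; exact hN
  · rw [Fintype.card_prod, ZMod.card, ← sq]; exact hqn
  · intro f
    have h := inner_rsv f f
    rw [real_inner_self_eq_norm_sq] at h
    simp only [filter_true, card_univ, ZMod.card] at h
    rw [div_self hq0.ne'] at h
    have h0 := norm_nonneg (rsv f)
    nlinarith
  · intro f g hfg
    rw [inner_rsv, abs_of_nonneg (by positivity)]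
    refine div_le_div_of_nonneg_right ?_ hq0.le
    have hne : pol f - pol g ≠ 0 := by
      intro h
      apply hfg
      funext i
      rw [← coeff_pol f i, ← coeff_pol g i, sub_eq_zero.1 h]
    have hdeg : (pol f - pol g).natDegree < a := by
      rw [natDegree_lt_iff_degree_lt hne]
      exact (degree_sub_le _ _).trans_lt (max_lt (degree_pol f) (degree_pol g))
    have hsub : (univ.filter fun x : ZMod q => (pol f).eval x = (pol g).eval x) ⊆
        (pol f - pol g).roots.toFinset := by
      intro x hx
      rw [mem_filter] at hx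
      rw [Multiset.mem_toFinset, mem_roots hne, IsRoot, eval_sub, hx.2, sub_self]
    have hc := (card_le_card hsub).trans ((Multiset.toFinset_card_le _).trans (card_roots' _))
    have : (univ.filter fun x : ZMod q => (pol f).eval x = (pol g).eval x).card + 1 ≤ a := by omega
    have h2 : ((univ.filter fun x : ZMod q => (pol f).eval x = (pol g).eval x).card : ℝ) + 1 ≤ a := by
      exact_mod_cast this
    linarith

end Pool.Agent.MP_943f09_an
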