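import Mathlib

/-! Rank inequalities for perturbed identity matrices. -/

namespace Pool.Agent.MP_943f09_an

open Finset

section
variable {ι : Type*} [Fintype ι]

/-- For vectors `y i` in a subspace of dimension `d`, the square of the trace is at most `d` times
the sum of the squares of all entries. -/
theorem trace_sq_le_euc (L : Submodule ℝ (EuclideanSpace ℝ ι)) (y : ι → EuclideanSpace ℝ ι)
    (hy : ∀ i, y i ∈ L) :
    (∑ i, y i i) ^ 2 ≤ (Module.finrank ℝ L : ℝ) * ∑ i, ∑ j, (y i j) ^ 2 := by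
  classical
  set b := stdOrthonormalBasis ℝ L with hb
  have hexp : ∀ i, y i = ∑ k, inner ℝ ((b k : L) : EuclideanSpace ℝ ι) (y i) •
      ((b k : L) : EuclideanSpace ℝ ι) := by
    intro i
    have h := b.sum_repr' ⟨y i, hy i⟩
    have h2 := congrArg (fun v : L => (v : EuclideanSpace ℝ ι)) h
    simp only [Submodule.coe_sum, Submodule.coe_smul, Submodule.coe_inner] at h2
    exact h2.symm
  have hnorm : ∀ i, ∑ k, inner ℝ ((b k : L) : EuclideanSpace ℝ ι) (y i) ^ 2 = ∑ j, (y i j) ^ 2 := by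
    intro i
    have h := b.sum_sq_norm_inner_right ⟨y i, hy i⟩
    have e : ‖(⟨y i, hy i⟩ : L)‖ ^ 2 = ∑ j, (y i j) ^ 2 := by
      rw [Submodule.coe_norm, EuclideanSpace.norm_sq_eq]
      simp
    rw [← e, ← h]
    refine Finset.sum_congr rfl fun k _ => ?_
    rw [Submodule.coe_inner, Real.norm_eq_abs, sq_abs]
  have htr : ∑ i, y i i = ∑ i, ∑ k, inner ℝ ((b k : L) : EuclideanSpace ℝ ι) (y i) *
      ((b k : L) : EuclideanSpace ℝ ι) i := by
    refine Finset.sum_congr rfl fun i _ => ?_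
    conv_lhs => rw [hexp i]
    simp
  have hcs := Finset.sum_mul_sq_le_sq_mul_sq ((Finset.univ : Finset ι) ×ˢ
    (Finset.univ : Finset (Fin (Module.finrank ℝ L))))
    (fun p => inner ℝ ((b p.2 : L) : EuclideanSpace ℝ ι) (y p.1))
    (fun p => ((b p.2 : L) : EuclideanSpace ℝ ι) p.1)
  rw [Finset.sum_product, Finset.sum_product, Finset.sum_product_right] at hcs
  rw [htr]
  refine hcs.trans (le_of_eq ?_)
  have h1 : ∑ x, ∑ k, inner ℝ ((b k : L) : EuclideanSpace ℝ ι) (y x) ^ 2 = ∑ i, ∑ j, (y i j) ^ 2 :=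
    Finset.sum_congr rfl fun i _ => hnorm i
  have h2 : ∑ k, ∑ x, (((b k : L) : EuclideanSpace ℝ ι) x) ^ 2 = (Module.finrank ℝ L : ℝ) := by
    have : ∀ k, ∑ x, (((b k : L) : EuclideanSpace ℝ ι) x) ^ 2 = 1 := by
      intro k
      have h := b.norm_eq_one k
      rw [Submodule.coe_norm] at h
      have h3 : ‖((b k : L) : EuclideanSpace ℝ ι)‖ ^ 2 = 1 := by rw [h]; norm_num
      rw [EuclideanSpace.norm_sq_eq] at h3
      simpa using h3
    rw [Finset.sum_congr rfl fun k _ => this k]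
    simp
  rw [h1, h2]; ring

theorem trace_sq_le (L : Submodule ℝ (ι → ℝ)) (y : ι → ι → ℝ) (hy : ∀ i, y i ∈ L) {n : ℕ}
    (hn : Module.finrank ℝ L ≤ n) :
    (∑ i, y i i) ^ 2 ≤ (n : ℝ) * ∑ i, ∑ j, (y i j) ^ 2 := by
  set e := (WithLp.linearEquiv 2 ℝ (ι → ℝ)).symm with he
  have h := trace_sq_le_euc (L.map e.toLinearMap) (fun i => e (y i))
    (fun i => Submodule.mem_map_of_mem (hy i))
  rw [LinearEquiv.finrank_map_eq] at h
  have h2 : (∑ i, y i i) ^ 2 ≤ (Module.finrank ℝ L : ℝ) * ∑ i, ∑ j, (y i j) ^ 2 := h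
  refine h2.trans ?_
  have : (Module.finrank ℝ L : ℝ) ≤ n := by exact_mod_cast hn
  have h0 : 0 ≤ ∑ i, ∑ j, (y i j) ^ 2 := sum_nonneg fun i _ => sum_nonneg fun j _ => sq_nonneg _
  gcongr

/-- Distance of the identity to matrices of rank at most `n`. -/
theorem card_sub_le [DecidableEq ι] (L : Submodule ℝ (ι → ℝ)) (y : ι → ι → ℝ) (hy : ∀ i, y i ∈ L)
    {n : ℕ} (hn : Module.finrank ℝ L ≤ n) (hn0 : 0 < n) :
    (Fintype.card ι : ℝ) - n ≤ ∑ i, ∑ j, (y i j - if i = j then 1 else 0) ^ 2 := by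
  have h := trace_sq_le L y hy hn
  have e : ∑ i, ∑ j, (y i j - if i = j then 1 else 0) ^ 2 =
      ∑ i, ∑ j, (y i j) ^ 2 - 2 * ∑ i, y i i + Fintype.card ι := by
    have : ∀ i, ∑ j, (y i j - if i = j then 1 else 0) ^ 2 = ∑ j, (y i j) ^ 2 - 2 * y i i + 1 := by
      intro i
      have h1 : ∀ j, (y i j - if i = j then 1 else 0) ^ 2 =
          (y i j) ^ 2 - 2 * (if i = j then y i j else 0) + (if i = j then 1 else 0) := by
        intro j
        split_ifs <;> ring
      rw [sum_congr rfl fun j _ => h1 j, sum_add_distrib, sum_sub_distrib, ← mul_sum]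
      simp
    rw [sum_congr rfl fun i _ => this i, sum_add_distrib, sum_sub_distrib, ← mul_sum]
    simp
  rw [e]
  set S := ∑ i, ∑ j, (y i j) ^ 2
  set t := ∑ i, y i i
  have hnp : (0 : ℝ) < n := by exact_mod_cast hn0
  have h3 : t ^ 2 / n ≤ S := by rw [div_le_iff₀ hnp]; linarith
  have h4 : 0 ≤ (t - n) ^ 2 / n := by positivity
  have h5 : (t - n) ^ 2 / n = t ^ 2 / n - 2 * t + n := by field_simp; ring
  linarith

/-- Entrywise powers: the rows of the `p`-th entrywise power of a matrix of rank at most `n` lie in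
a subspace of dimension at most `n.multichoose p`. -/
theorem exists_pow_submodule (L : Submodule ℝ (ι → ℝ)) (y : ι → ι → ℝ) (hy : ∀ i, y i ∈ L)
    {n : ℕ} (hn : Module.finrank ℝ L ≤ n) (p : ℕ) :
    ∃ L' : Submodule ℝ (ι → ℝ), Module.finrank ℝ L' ≤ (n + p - 1).choose p ∧
      ∀ i, (fun j => (y i j) ^ p) ∈ L' := by
  classical
  set m := Module.finrank ℝ L with hm
  set u : Module.Basis (Fin m) ℝ L := Module.finBasis ℝ L with hu
  set w : Sym (Fin m) p → (ι → ℝ) := fun s j =>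
    (s.1.map fun k => ((u k : L) : ι → ℝ) j).prod with hw
  refine ⟨Submodule.span ℝ (Set.range w), ?_, ?_⟩
  · refine (finrank_range_le_card w).trans ?_
    rw [Sym.card_sym_eq_multichoose, Fintype.card_fin, ← Nat.multichoose_eq]
    have : ∀ a b : ℕ, a ≤ b → a.multichoose p ≤ b.multichoose p := by
      intro a b hab
      rw [Nat.multichoose_eq, Nat.multichoose_eq]
      exact Nat.choose_le_choose p (by omega)
    exact this _ _ hn
  · intro i
    have hexp : ∀ j, y i j = ∑ k, u.repr ⟨y i, hy i⟩ k * ((u k : L) : ι → ℝ) j := by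
      intro j
      have h := u.sum_repr ⟨y i, hy i⟩
      have h2 := congrArg (fun v : L => (v : ι → ℝ) j) h
      simp only [Submodule.coe_sum, Submodule.coe_smul] at h2
      rw [← h2]
      simp
    have e : (fun j => (y i j) ^ p) = ∑ s ∈ (univ : Finset (Fin m)).sym p,
        ((s.val.countPerms : ℝ) * (s.val.map fun k => u.repr ⟨y i, hy i⟩ k).prod) • w s := by
      funext j
      rw [hexp j, Finset.sum_pow, Finset.sum_apply]
      refine sum_congr rfl fun s _ => ?_
      rw [Multiset.prod_map_mul, Pi.smul_apply, smul_eq_mul, mul_assoc]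
    rw [e]
    exact Submodule.sum_mem _ fun s _ => Submodule.smul_mem _ _ (Submodule.subset_span ⟨s, rfl⟩)

end

end Pool.Agent.MP_943f09_an
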