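import Pool.Agent.MP_943f09_an.Embed

/-! Families of sign vectors with small coherence (greedy choice). -/

namespace Pool.Agent.MP_943f09_an

open Finset

/-- sum of the coordinates of a sign vector -/
def sval {n : ℕ} (z : Fin n → ℤˣ) : ℝ := ∑ i, ((z i : ℤ) : ℝ)

theorem sum_exp {n : ℕ} (l : ℝ) :
    ∑ z : Fin n → ℤˣ, Real.exp (l * sval z) = (Real.exp l + Real.exp (-l)) ^ n := by
  have h := Finset.prod_univ_sum (fun _ : Fin n => (Finset.univ : Finset ℤˣ))
    (fun _ (u : ℤˣ) => Real.exp (l * ((u : ℤ) : ℝ)))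
  rw [Fintype.piFinset_univ] at h
  have e1 : ∑ u : ℤˣ, Real.exp (l * ((u : ℤ) : ℝ)) = Real.exp l + Real.exp (-l) := by
    rw [UnitsInt.univ, sum_insert (by decide), sum_singleton]
    simp
  rw [prod_congr rfl fun i _ => e1, prod_const, card_univ, Fintype.card_fin] at h
  rw [h]
  refine sum_congr rfl fun z _ => ?_
  rw [← Real.exp_sum, sval, mul_sum]

theorem exp_add_le {n : ℕ} (l : ℝ) :
    (Real.exp l + Real.exp (-l)) ^ n ≤ 2 ^ n * Real.exp (n * l ^ 2 / 2) := by
  have h := Real.cosh_le_exp_half_sq l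
  have e : Real.exp l + Real.exp (-l) = 2 * Real.cosh l := by rw [Real.cosh_eq]; ring
  rw [e, mul_pow]
  have h2 : Real.cosh l ^ n ≤ Real.exp (l ^ 2 / 2) ^ n :=
    pow_le_pow_left₀ (Real.cosh_pos l).le h n
  have e2 : Real.exp (l ^ 2 / 2) ^ n = Real.exp (n * l ^ 2 / 2) := by
    rw [← Real.exp_nat_mul]; congr 1; ring
  rw [e2] at h2
  exact mul_le_mul_of_nonneg_left h2 (by positivity)

theorem card_tail {n : ℕ} (hn : 0 < n) {t : ℝ} (ht : 0 ≤ t) :
    ((univ.filter fun z : Fin n → ℤˣ => t < sval z).card : ℝ) ≤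
      2 ^ n * Real.exp (-(t ^ 2 / (2 * n))) := by
  have hn0 : (0 : ℝ) < n := by exact_mod_cast hn
  set l := t / n with hl
  have hl0 : 0 ≤ l := by positivity
  have h1 : ((univ.filter fun z : Fin n → ℤˣ => t < sval z).card : ℝ) * Real.exp (l * t) ≤
      ∑ z : Fin n → ℤˣ, Real.exp (l * sval z) := by
    rw [← nsmul_eq_mul, ← sum_const]
    refine (sum_le_sum (f := fun _ => Real.exp (l * t)) (g := fun z => Real.exp (l * sval z))
      fun z hz => ?_).trans (sum_le_sum_of_subset_of_nonneg (filter_subset _ _)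
        fun z _ _ => (Real.exp_pos _).le)
    rw [mem_filter] at hz
    exact Real.exp_le_exp.2 (mul_le_mul_of_nonneg_left hz.2.le hl0)
  rw [sum_exp] at h1
  have h2 := h1.trans (exp_add_le l)
  have e : Real.exp (n * l ^ 2 / 2) = Real.exp (-(t ^ 2 / (2 * n))) * Real.exp (l * t) := by
    rw [← Real.exp_add]
    congr 1
    rw [hl]
    field_simp
    ring
  rw [e, ← mul_assoc] at h2
  exact le_of_mul_le_mul_right h2 (Real.exp_pos _)

theorem sval_neg {n : ℕ} (z : Fin n → ℤˣ) : sval (-z) = - sval z := by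
  simp [sval]

theorem card_bad {n : ℕ} (hn : 0 < n) {t : ℝ} (ht : 0 ≤ t) (x : Fin n → ℤˣ) :
    ((univ.filter fun y : Fin n → ℤˣ => t < |sval (x * y)|).card : ℝ) ≤
      2 ^ n * (2 * Real.exp (-(t ^ 2 / (2 * n)))) := by
  classical
  have h1 : (univ.filter fun y : Fin n → ℤˣ => t < |sval (x * y)|).card ≤
      (univ.filter fun z : Fin n → ℤˣ => t < sval z).card +
      (univ.filter fun z : Fin n → ℤˣ => t < sval (-z)).card := by
    have e : (univ.filter fun y : Fin n → ℤˣ => t < |sval (x * y)|).card =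
        (univ.filter fun z : Fin n → ℤˣ => t < |sval z|).card := by
      refine card_bij (fun y _ => x * y) ?_ ?_ ?_
      · intro y hy
        simpa using hy
      · intro a _ b _ hab
        exact mul_left_cancel hab
      · intro z hz
        refine ⟨x⁻¹ * z, ?_, by simp⟩
        simpa using hz
    rw [e]
    refine (card_le_card ?_).trans (card_union_le _ _)
    intro z hz
    simp only [mem_filter, mem_univ, true_and, mem_union] at hz ⊢
    rw [sval_neg]
    exact lt_abs.1 hz
  have h2 : (univ.filter fun z : Fin n → ℤˣ => t < sval (-z)).card =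
      (univ.filter fun z : Fin n → ℤˣ => t < sval z).card := by
    refine card_bij (fun y _ => -y) ?_ ?_ ?_
    · intro y hy
      simpa using hy
    · intro a _ b _ hab
      exact neg_injective hab
    · intro z hz
      refine ⟨-z, ?_, by simp⟩
      simpa using hz
  rw [h2] at h1
  have h3 := card_tail hn ht
  have h4 : ((univ.filter fun y : Fin n → ℤˣ => t < |sval (x * y)|).card : ℝ) ≤
      (univ.filter fun z : Fin n → ℤˣ => t < sval z).card +
      (univ.filter fun z : Fin n → ℤˣ => t < sval z).card := by exact_mod_cast h1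
  linarith

/-- Greedy choice. -/
theorem exists_signs {n : ℕ} (hn : 0 < n) {t : ℝ} (ht : 0 ≤ t) (m : ℕ)
    (hm : (m : ℝ) * (2 * Real.exp (-(t ^ 2 / (2 * n)))) ≤ 1) :
    ∃ x : Fin m → (Fin n → ℤˣ), ∀ i j, i ≠ j → |sval (x i * x j)| ≤ t := by
  classical
  induction m with
  | zero => exact ⟨fun i => i.elim0, fun i => i.elim0⟩
  | succ m ih =>
    have hpos : 0 < 2 * Real.exp (-(t ^ 2 / (2 * n))) := by positivity
    push_cast at hm
    obtain ⟨x, hx⟩ := ih (by nlinarith)
    set B : Finset (Fin n → ℤˣ) := univ.biUnion fun i : Fin m =>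
      univ.filter fun y : Fin n → ℤˣ => t < |sval (x i * y)| with hB
    have hBc : (B.card : ℝ) ≤ m * (2 ^ n * (2 * Real.exp (-(t ^ 2 / (2 * n))))) := by
      have h1 : B.card ≤ ∑ i : Fin m,
          (univ.filter fun y : Fin n → ℤˣ => t < |sval (x i * y)|).card := card_biUnion_le
      have h2 : (B.card : ℝ) ≤ ∑ i : Fin m,
          ((univ.filter fun y : Fin n → ℤˣ => t < |sval (x i * y)|).card : ℝ) := by
        exact_mod_cast h1
      refine h2.trans ((sum_le_sum fun i _ => card_bad hn ht (x i)).trans (le_of_eq ?_))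
      rw [sum_const, card_univ, Fintype.card_fin, nsmul_eq_mul]
    have hlt : B.card < (univ : Finset (Fin n → ℤˣ)).card := by
      have e : ((univ : Finset (Fin n → ℤˣ)).card : ℝ) = 2 ^ n := by
        rw [card_univ, Fintype.card_fun, Fintype.card_units_int, Fintype.card_fin]; norm_num
      have h2n : (0 : ℝ) < 2 ^ n := by positivity
      have : (B.card : ℝ) < ((univ : Finset (Fin n → ℤˣ)).card : ℝ) := by
        rw [e]
        refine hBc.trans_lt ?_
        have e2 : (m : ℝ) * (2 ^ n * (2 * Real.exp (-(t ^ 2 / (2 * n))))) =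
          2 ^ n * (m * (2 * Real.exp (-(t ^ 2 / (2 * n))))) := by ring
        rw [e2]
        have : (m : ℝ) * (2 * Real.exp (-(t ^ 2 / (2 * n)))) < 1 := by nlinarith
        nlinarith
      exact_mod_cast this
    obtain ⟨y, -, hy⟩ := exists_mem_notMem_of_card_lt_card hlt
    have hy' : ∀ i : Fin m, |sval (x i * y)| ≤ t := by
      intro i
      by_contra hcon
      push Not at hcon
      exact hy (mem_biUnion.2 ⟨i, mem_univ _, by simpa using hcon⟩)
    refine ⟨Fin.snoc x y, fun i j hij => ?_⟩
    induction i using Fin.lastCases with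
    | last =>
      induction j using Fin.lastCases with
      | last => exact absurd rfl hij
      | cast j =>
        rw [Fin.snoc_last, Fin.snoc_castSucc, mul_comm]
        exact hy' j
    | cast i =>
      induction j using Fin.lastCases with
      | last =>
        rw [Fin.snoc_last, Fin.snoc_castSucc]
        exact hy' i
      | cast j =>
        rw [Fin.snoc_castSucc, Fin.snoc_castSucc]
        exact hx i j fun h => hij (by rw [h])

/-- Upper bound by sign vectors. -/
theorem hasDict_signs {N n : ℕ} (hN : 2 ≤ N) (hn : 1 ≤ n) :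
    HasDict N n (2 * Real.sqrt (Real.log N / n)) := by
  have hn0 : (0 : ℝ) < n := by exact_mod_cast hn
  have hN2 : (2 : ℝ) ≤ N := by exact_mod_cast hN
  have hl0 : 0 < Real.log N := Real.log_pos (by linarith)
  set t := 2 * Real.sqrt (n * Real.log N) with ht
  have ht0 : 0 ≤ t := by positivity
  have ht2 : t ^ 2 / (2 * n) = 2 * Real.log N := by
    rw [ht, mul_pow, Real.sq_sqrt (by positivity)]; field_simp
  obtain ⟨x, hx⟩ := exists_signs (n := n) (by omega) ht0 N (by
    rw [ht2, Real.exp_neg, show 2 * Real.log N = Real.log N + Real.log N by ring, Real.exp_add,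
      Real.exp_log (by linarith)]
    have : (N : ℝ) * (2 * ((N : ℝ) * N)⁻¹) = 2 / N := by field_simp
    rw [this, div_le_one (by linarith)]
    exact hN2)
  refine hasDict_of_family (fun i => ((Real.sqrt n)⁻¹ : ℝ) •
    (WithLp.toLp 2 (fun k => ((x i k : ℤ) : ℝ)) : EuclideanSpace ℝ (Fin n))) ⊤ (fun i => trivial)
    ?_ (fun i => ?_) (fun i j hij => ?_)
  · rw [finrank_top, finrank_euclideanSpace, Fintype.card_fin]
  · have e : ‖(WithLp.toLp 2 (fun k => ((x i k : ℤ) : ℝ)) : EuclideanSpace ℝ (Fin n))‖ =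
        Real.sqrt n := by
      rw [EuclideanSpace.norm_eq]
      congr 1
      have : ∀ k, ‖((x i k : ℤ) : ℝ)‖ ^ 2 = 1 := by
        intro k
        rcases Int.units_eq_one_or (x i k) with h | h <;> rw [h] <;> simp
      rw [sum_congr rfl fun k _ => this k]
      simp
    rw [norm_smul, e, norm_inv, Real.norm_of_nonneg (Real.sqrt_nonneg _)]
    exact inv_mul_cancel₀ (Real.sqrt_pos.2 hn0).ne'
  · rw [inner_smul_left, inner_smul_right]
    have e : inner ℝ (WithLp.toLp 2 (fun k => ((x i k : ℤ) : ℝ)) : EuclideanSpace ℝ (Fin n))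
        (WithLp.toLp 2 (fun k => ((x j k : ℤ) : ℝ))) = sval (x i * x j) := by
      rw [PiLp.inner_apply]
      unfold sval
      refine sum_congr rfl fun k _ => ?_
      simp [mul_comm]
    rw [e]
    have e2 : (Real.sqrt n)⁻¹ * ((Real.sqrt n)⁻¹) = (n : ℝ)⁻¹ := by
      rw [← mul_inv, Real.mul_self_sqrt hn0.le]
    simp only [conj_trivial]
    rw [← mul_assoc, e2, abs_mul, abs_inv, abs_of_pos hn0]
    have h1 := hx i j hij
    have e3 : 2 * Real.sqrt (Real.log N / n) = (n : ℝ)⁻¹ * t := by
      have : Real.log N / n = (n * Real.log N) / n ^ 2 := by field_simp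
      rw [this, Real.sqrt_div (by positivity), Real.sqrt_sq hn0.le, ht]
      field_simp
    rw [e3]
    exact mul_le_mul_of_nonneg_left h1 (by positivity)

end Pool.Agent.MP_943f09_an
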